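import Pool.Agent.Lib.MP_a51cbc_co.Defs

/-! The activation strategy for the marking game, with a set `P v` of privileged larger
neighbours of every vertex `v`. -/

open Classical

namespace MP_a51cbc_co

section Act

variable {V : Type*} [Fintype V] (H : SimpleGraph V) (r : V → ℕ) (P : V → Finset V) (s : ℕ)

/-- number of active vertices which jumped to `z` -/
noncomputable def cnt (A : Finset V) (g : V → V) (z : V) : ℕ := (A.filter fun w => g w = z).card

def JP (M A : Finset V) (g : V → V) : Prop :=
  ∀ w ∈ A, ∀ v, v ∉ M → r v < r w → H.Adj v w → r (g w) ≤ r v ∧ H.Adj (g w) w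

structure Inv (M A : Finset V) (g : V → V) : Prop where
  sub : M ⊆ A
  J : JP H r M A g
  c0 : ∀ z, z ∉ A → cnt A g z = 0
  c1 : ∀ z, z ∉ M → cnt A g z ≤ 1
  c2 : ∀ z, cnt A g z ≤ 2

structure Pend (M A : Finset V) (g : V → V) (x : V) : Prop where
  nx : x ∉ A
  sub : M ⊆ insert x A
  J : JP H r M A g
  c0 : ∀ z, z ∉ insert x A → cnt A g z = 0
  c1 : ∀ z, z ∉ M → cnt A g z ≤ 1
  c2 : ∀ z, cnt A g z ≤ 2
  cx : cnt A g x ≤ 1

def Small : Prop := ∀ v, (Finset.univ.filter fun w => H.Adj v w ∧ w ∉ P v).card +
    2 * (Finset.univ.filter fun z => r z ≤ r v ∧ ∃ w ∈ P v, H.Adj z w).card + 1 ≤ s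

variable {H r P s}

theorem cnt_update {A : Finset V} {g : V → V} {x : V} (hx : x ∉ A) (u z : V) :
    cnt (insert x A) (Function.update g x u) z = cnt A g z + if u = z then 1 else 0 := by
  have h1 : A.filter (fun w => Function.update g x u w = z) = A.filter fun w => g w = z := by
    apply Finset.filter_congr
    intro w hw
    have : w ≠ x := fun h => hx (h ▸ hw)
    rw [Function.update_of_ne this]
  unfold cnt
  rw [Finset.filter_insert, h1]
  by_cases h : u = z
  · rw [if_pos (by rw [Function.update_self]; exact h), if_pos h,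
      Finset.card_insert_of_notMem]
    intro hc
    exact hx (Finset.mem_filter.1 hc).1
  · rw [if_neg (by rw [Function.update_self]; exact h), if_neg h]
    rfl

theorem bound_of (hP : ∀ v, ∀ w ∈ P v, H.Adj v w ∧ r v < r w) (hs : Small H r P s)
    {M A : Finset V} {g : V → V} (hMA : M ⊆ A) (hJ : JP H r M A g)
    (hc : ∀ z, cnt A g z ≤ 2) {v : V} (hv : v ∉ M) : 1 + marked H M v ≤ s := by
  have h1 : marked H M v ≤ (Finset.univ.filter fun w => H.Adj v w ∧ w ∉ P v).card +
      (M.filter fun w => w ∈ P v).card := by
    unfold marked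
    refine le_trans (Finset.card_le_card ?_) (Finset.card_union_le _ _)
    intro w hw
    obtain ⟨hw1, hw2⟩ := Finset.mem_filter.1 hw
    by_cases h : w ∈ P v
    · exact Finset.mem_union_right _ (Finset.mem_filter.2 ⟨hw1, h⟩)
    · exact Finset.mem_union_left _ (Finset.mem_filter.2 ⟨Finset.mem_univ _, hw2, h⟩)
  have h2 : (M.filter fun w => w ∈ P v).card ≤
      2 * (Finset.univ.filter fun z => r z ≤ r v ∧ ∃ w ∈ P v, H.Adj z w).card := by
    apply Finset.card_le_mul_card_image_of_maps_to (f := g)
    · intro w hw
      obtain ⟨hw1, hw2⟩ := Finset.mem_filter.1 hw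
      obtain ⟨ha, hlt⟩ := hP v w hw2
      obtain ⟨h3, h4⟩ := hJ w (hMA hw1) v hv hlt ha
      exact Finset.mem_coe.2 (Finset.mem_filter.2 ⟨Finset.mem_univ _, h3, w, hw2, h4⟩)
    · intro z hz
      refine le_trans (Finset.card_le_card ?_) (hc z)
      intro w hw
      obtain ⟨hw1, hw2⟩ := Finset.mem_filter.1 hw
      exact Finset.mem_filter.2 ⟨hMA (Finset.mem_filter.1 hw1).1, hw2⟩
  have h3 := hs v
  omega

theorem free_move (hP : ∀ v, ∀ w ∈ P v, H.Adj v w ∧ r v < r w) (hs : Small H r P s)
    {M A : Finset V} {g : V → V} (hI : Inv H r M A g) (hM : M ≠ Finset.univ) :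
    ∃ a, a ∉ M ∧ ∃ A' g', 1 + marked H M a ≤ s ∧ Inv H r (insert a M) A' g' := by
  have hne : (Finset.univ.filter fun v => v ∉ M).Nonempty := by
    by_contra hc
    apply hM
    rw [Finset.not_nonempty_iff_eq_empty] at hc
    apply Finset.eq_univ_of_forall
    intro v
    by_contra hv
    have : v ∈ (Finset.univ.filter fun v => v ∉ M) := Finset.mem_filter.2 ⟨Finset.mem_univ _, hv⟩
    rw [hc] at this
    exact absurd this (Finset.notMem_empty _)
  obtain ⟨a, ha, hmin⟩ := Finset.exists_min_image _ r hne
  have haM : a ∉ M := (Finset.mem_filter.1 ha).2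
  have hmin' : ∀ v, v ∉ M → r a ≤ r v := fun v hv =>
    hmin v (Finset.mem_filter.2 ⟨Finset.mem_univ _, hv⟩)
  refine ⟨a, haM, ?_⟩
  have hb : 1 + marked H M a ≤ s := bound_of hP hs hI.sub hI.J hI.c2 haM
  by_cases haA : a ∈ A
  · refine ⟨A, g, hb, ?_, ?_, hI.c0, ?_, hI.c2⟩
    · intro v hv
      rcases Finset.mem_insert.1 hv with h | h
      · rw [h]; exact haA
      · exact hI.sub h
    · intro w hw v hv
      exact hI.J w hw v (fun h => hv (Finset.mem_insert_of_mem h))
    · intro z hz
      exact hI.c1 z (fun h => hz (Finset.mem_insert_of_mem h))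
  · refine ⟨insert a A, Function.update g a a, hb, ?_, ?_, ?_, ?_, ?_⟩
    · exact Finset.insert_subset_insert a hI.sub
    · intro w hw v hv hlt hadj
      have hv' : v ∉ M := fun h => hv (Finset.mem_insert_of_mem h)
      rcases Finset.mem_insert.1 hw with h | h
      · rw [h] at hlt
        exact absurd (hmin' v hv') (by omega)
      · have : w ≠ a := fun h' => haA (h' ▸ h)
        rw [Function.update_of_ne this]
        exact hI.J w h v hv' hlt hadj
    · intro z hz
      have hz1 : a ≠ z := fun h => hz (h ▸ Finset.mem_insert_self _ _)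
      rw [cnt_update haA, if_neg hz1, hI.c0 z (fun h => hz (Finset.mem_insert_of_mem h))]
    · intro z hz
      have hz1 : a ≠ z := fun h => hz (h ▸ Finset.mem_insert_self _ _)
      rw [cnt_update haA, if_neg hz1]
      exact hI.c1 z (fun h => hz (Finset.mem_insert_of_mem h))
    · intro z
      rw [cnt_update haA]
      by_cases h : a = z
      · rw [if_pos h, ← h, hI.c0 a haA]; omega
      · rw [if_neg h]; exact hI.c2 z

theorem chain (hr : Function.Injective r) (hP : ∀ v, ∀ w ∈ P v, H.Adj v w ∧ r v < r w)
    (hs : Small H r P s) {M : Finset V} (hM : M ≠ Finset.univ) (n : ℕ) :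
    ∀ (x : V) (A : Finset V) (g : V → V), r x = n → Pend H r M A g x →
    ∃ a, a ∉ M ∧ ∃ A' g', 1 + marked H M a ≤ s ∧ Inv H r (insert a M) A' g' := by
  induction n using Nat.strong_induction_on with
  | _ n ih =>
    intro x A g hx hp
    by_cases hne : (Finset.univ.filter fun u => u ∉ M ∧ r u ≤ r x ∧ (u = x ∨ H.Adj u x)).Nonempty
    · obtain ⟨u, hu, hmin⟩ := Finset.exists_min_image _ r hne
      obtain ⟨-, huM, hux, hua⟩ := Finset.mem_filter.1 hu
      have hJ1 : JP H r M (insert x A) (Function.update g x u) := by
        intro w hw v hv hlt hadj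
        rcases Finset.mem_insert.1 hw with h | h
        · subst h
          rw [Function.update_self]
          have h1 : r u ≤ r v := hmin v (Finset.mem_filter.2
            ⟨Finset.mem_univ _, hv, le_of_lt hlt, Or.inr hadj⟩)
          refine ⟨h1, ?_⟩
          rcases hua with h2 | h2
          · rw [h2] at h1; omega
          · exact h2
        · have : w ≠ x := fun h' => hp.nx (h' ▸ h)
          rw [Function.update_of_ne this]
          exact hp.J w h v hv hlt hadj
      have hc2 : ∀ z, cnt (insert x A) (Function.update g x u) z ≤ 2 := by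
        intro z
        rw [cnt_update hp.nx]
        by_cases h : u = z
        · rw [if_pos h, ← h]; have := hp.c1 u huM; omega
        · rw [if_neg h]; exact hp.c2 z
      by_cases huA : u ∈ insert x A
      · refine ⟨u, huM, insert x A, Function.update g x u,
          bound_of hP hs hp.sub hJ1 hc2 huM, ?_, ?_, ?_, ?_, hc2⟩
        · intro v hv
          rcases Finset.mem_insert.1 hv with h | h
          · rw [h]; exact huA
          · exact hp.sub h
        · intro w hw v hv
          exact hJ1 w hw v (fun h => hv (Finset.mem_insert_of_mem h))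
        · intro z hz
          have hz1 : u ≠ z := fun h => hz (h ▸ huA)
          rw [cnt_update hp.nx, if_neg hz1, hp.c0 z hz]
        · intro z hz
          have hz1 : u ≠ z := fun h => hz (h ▸ Finset.mem_insert_self _ _)
          rw [cnt_update hp.nx, if_neg hz1]
          exact hp.c1 z (fun h => hz (Finset.mem_insert_of_mem h))
      · have hux' : u ≠ x := fun h => huA (h ▸ Finset.mem_insert_self _ _)
        have hlt : r u < r x := lt_of_le_of_ne hux (fun h => hux' (hr h))
        refine ih (r u) (by omega) u (insert x A) (Function.update g x u) rfl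
          ⟨huA, ?_, hJ1, ?_, ?_, hc2, ?_⟩
        · exact fun v hv => Finset.mem_insert_of_mem (hp.sub hv)
        · intro z hz
          have hz1 : u ≠ z := fun h => hz (h ▸ Finset.mem_insert_self _ _)
          rw [cnt_update hp.nx, if_neg hz1, hp.c0 z (fun h => hz (Finset.mem_insert_of_mem h))]
        · intro z hz
          rw [cnt_update hp.nx]
          by_cases h : u = z
          · rw [if_pos h, ← h, hp.c0 u huA]
          · rw [if_neg h]; exact hp.c1 z hz
        · rw [cnt_update hp.nx, if_pos rfl, hp.c0 u huA]
    · have hemp : ∀ v, v ∉ M → r v ≤ r x → (v = x ∨ H.Adj v x) → False := by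
        intro v h1 h2 h3
        exact hne ⟨v, Finset.mem_filter.2 ⟨Finset.mem_univ _, h1, h2, h3⟩⟩
      have hxM : x ∈ M := by
        by_contra h
        exact hemp x h le_rfl (Or.inl rfl)
      refine free_move (A := insert x A) (g := Function.update g x x) hP hs
        ⟨hp.sub, ?_, ?_, ?_, ?_⟩ hM
      · intro w hw v hv hlt hadj
        rcases Finset.mem_insert.1 hw with h | h
        · subst h
          exact (hemp v hv (le_of_lt hlt) (Or.inr hadj)).elim
        · have : w ≠ x := fun h' => hp.nx (h' ▸ h)
          rw [Function.update_of_ne this]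
          exact hp.J w h v hv hlt hadj
      · intro z hz
        have hz1 : x ≠ z := fun h => hz (h ▸ Finset.mem_insert_self _ _)
        rw [cnt_update hp.nx, if_neg hz1, hp.c0 z hz]
      · intro z hz
        have hz1 : x ≠ z := fun h => hz (h ▸ hxM)
        rw [cnt_update hp.nx, if_neg hz1]
        exact hp.c1 z hz
      · intro z
        rw [cnt_update hp.nx]
        by_cases h : x = z
        · rw [if_pos h, ← h]; have := hp.cx; omega
        · rw [if_neg h]; exact hp.c2 z

theorem bob_turn (hr : Function.Injective r) (hP : ∀ v, ∀ w ∈ P v, H.Adj v w ∧ r v < r w)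
    (hs : Small H r P s) (n : ℕ) : ∀ (M A : Finset V) (g : V → V), Inv H r M A g →
    Fintype.card V - M.card = n → ∀ b, b ∉ M → 1 + marked H M b ≤ s ∧
    AliceCan H s (insert b M) := by
  induction n using Nat.strong_induction_on with
  | _ n ih =>
    intro M A g hI hn b hb
    refine ⟨bound_of hP hs hI.sub hI.J hI.c2 hb, ?_⟩
    by_cases hu : insert b M = Finset.univ
    · exact AliceCan.done _ hu
    · have key : ∃ a, a ∉ insert b M ∧ ∃ A' g', 1 + marked H (insert b M) a ≤ s ∧
          Inv H r (insert a (insert b M)) A' g' := by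
        by_cases hbA : b ∈ A
        · refine free_move (A := A) (g := g) hP hs ⟨?_, ?_, hI.c0, ?_, hI.c2⟩ hu
          · intro v hv
            rcases Finset.mem_insert.1 hv with h | h
            · rw [h]; exact hbA
            · exact hI.sub h
          · intro w hw v hv
            exact hI.J w hw v (fun h => hv (Finset.mem_insert_of_mem h))
          · intro z hz
            exact hI.c1 z (fun h => hz (Finset.mem_insert_of_mem h))
        · refine chain hr hP hs hu (r b) b A g rfl ⟨hbA, ?_, ?_, ?_, ?_, hI.c2, ?_⟩
          · exact Finset.insert_subset_insert b hI.sub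
          · intro w hw v hv
            exact hI.J w hw v (fun h => hv (Finset.mem_insert_of_mem h))
          · intro z hz
            exact hI.c0 z (fun h => hz (Finset.mem_insert_of_mem h))
          · intro z hz
            exact hI.c1 z (fun h => hz (Finset.mem_insert_of_mem h))
          · rw [hI.c0 b hbA]; omega
      obtain ⟨a, ha, A', g', hsa, hI'⟩ := key
      have hc1 : (insert b M).card = M.card + 1 := Finset.card_insert_of_notMem hb
      have hc2 : (insert a (insert b M)).card = (insert b M).card + 1 :=
        Finset.card_insert_of_notMem ha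
      have hc3 : (insert a (insert b M)).card ≤ Fintype.card V := Finset.card_le_univ _
      have hrec := ih (Fintype.card V - (insert a (insert b M)).card) (by omega) _ A' g' hI' rfl
      exact AliceCan.move _ a ha hsa (fun c hc => (hrec c hc).1) (fun c hc => (hrec c hc).2)

/-- **Activation lemma.** -/
theorem aliceCan_of_order (hr : Function.Injective r)
    (hP : ∀ v, ∀ w ∈ P v, H.Adj v w ∧ r v < r w) (hs : Small H r P s) : AliceCan H s ∅ := by
  by_cases hu : (∅ : Finset V) = Finset.univ
  · exact AliceCan.done _ hu
  · have hI : Inv H r (∅ : Finset V) ∅ id := by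
      refine ⟨Finset.Subset.refl _, ?_, ?_, ?_, ?_⟩
      · intro w hw; exact absurd hw (Finset.notMem_empty _)
      · intro z _; rfl
      · intro z _; exact Nat.zero_le _
      · intro z; exact Nat.zero_le _
    obtain ⟨a, ha, A', g', hsa, hI'⟩ := free_move hP hs hI hu
    have hrec := bob_turn hr hP hs _ _ A' g' hI' rfl
    exact AliceCan.move _ a ha hsa (fun c hc => (hrec c hc).1) (fun c hc => (hrec c hc).2)

end Act

end MP_a51cbc_co
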