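import Pool.Agent.Lib.MP_a51cbc_co.Defs

/-! Strategies for Bob. -/

open Classical

namespace MP_a51cbc_co

section

set_option linter.unusedSectionVars false

variable {V : Type*} [Fintype V] {H : SimpleGraph V}

/-- A clique forces its size. -/
theorem clique_le {Q : Finset V} (hQ : ∀ v ∈ Q, ∀ w ∈ Q, v ≠ w → H.Adj v w) {s : ℕ}
    {M : Finset V} (hA : AliceCan H s M) (hM : ¬ Q ⊆ M) : Q.card ≤ s := by
  have key : ∀ (M : Finset V) (a : V), a ∉ M → Q ⊆ insert a M → ¬ Q ⊆ M →
      1 + marked H M a ≤ s → Q.card ≤ s := by
    intro M a haM h1 h2 h3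
    have haQ : a ∈ Q := by
      by_contra hc
      apply h2
      intro v hv
      rcases Finset.mem_insert.1 (h1 hv) with h | h
      · exact absurd (h ▸ hv) hc
      · exact h
    have h4 : (Q.erase a).card ≤ marked H M a := by
      apply Finset.card_le_card
      intro v hv
      obtain ⟨hva, hvQ⟩ := Finset.mem_erase.1 hv
      refine Finset.mem_filter.2 ⟨?_, hQ a haQ v hvQ hva.symm⟩
      rcases Finset.mem_insert.1 (h1 hvQ) with h | h
      · exact absurd h hva
      · exact h
    rw [Finset.card_erase_of_mem haQ] at h4
    omega
  induction hA with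
  | done M h => exact absurd (h ▸ Finset.subset_univ Q) hM
  | move M a ha hs hb hn ih =>
    by_cases h1 : Q ⊆ insert a M
    · exact key M a ha h1 hM hs
    · obtain ⟨b, hbQ, hb1⟩ := Finset.not_subset.1 h1
      by_cases h2 : Q ⊆ insert b (insert a M)
      · exact key _ b hb1 h2 h1 (hb b hb1)
      · exact ih b hb1 h2

variable {ι : Type*} [Fintype ι]

/-- the deficit of the outside of group `i` -/
noncomputable def phi (G O : ι → Finset V) (e : ι → ℕ) (M : Finset V) (i : ι) : ℕ :=
  if G i ⊆ M then 0 else e i - (O i ∩ M).card

/-- the number of unmarked vertices of group `i` -/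
noncomputable def psi (G : ι → Finset V) (M : Finset V) (i : ι) : ℕ := (G i \ M).card

theorem psi_empty (G : ι → Finset V) (i : ι) : psi G ∅ i = (G i).card := by
  unfold psi
  rw [Finset.sdiff_empty]

theorem phi_le (G O : ι → Finset V) (e : ι → ℕ) (M : Finset V) (i : ι) :
    phi G O e M i ≤ e i := by
  unfold phi
  split_ifs
  · exact Nat.zero_le _
  · exact Nat.sub_le _ _

theorem phi_anti (G O : ι → Finset V) (e : ι → ℕ) {M M' : Finset V} (h : M ⊆ M') (i : ι) :
    phi G O e M' i ≤ phi G O e M i := by
  unfold phi
  by_cases h1 : G i ⊆ M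
  · rw [if_pos h1, if_pos (h1.trans h)]
  · rw [if_neg h1]
    by_cases h2 : G i ⊆ M'
    · rw [if_pos h2]; exact Nat.zero_le _
    · rw [if_neg h2]
      have h3 : (O i ∩ M).card ≤ (O i ∩ M').card := by
        apply Finset.card_le_card
        intro v hv
        obtain ⟨a1, a2⟩ := Finset.mem_inter.1 hv
        exact Finset.mem_inter.2 ⟨a1, h a2⟩
      omega

theorem psi_of_not {G : ι → Finset V} {M : Finset V} {b : V} {i : ι} (h : b ∉ G i) :
    psi G (insert b M) i = psi G M i := by
  unfold psi
  congr 1
  ext v
  rw [Finset.mem_sdiff, Finset.mem_sdiff, Finset.mem_insert]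
  constructor
  · rintro ⟨h1, h2⟩
    exact ⟨h1, fun h3 => h2 (Or.inr h3)⟩
  · rintro ⟨h1, h2⟩
    refine ⟨h1, ?_⟩
    rintro (h3 | h3)
    · exact h (h3 ▸ h1)
    · exact h2 h3

theorem psi_of_mem {G : ι → Finset V} {M : Finset V} {a : V} {i : ι} (h : a ∈ G i)
    (ha : a ∉ M) : psi G M i = psi G (insert a M) i + 1 := by
  unfold psi
  have : G i \ M = insert a (G i \ insert a M) := by
    ext v
    simp only [Finset.mem_sdiff, Finset.mem_insert]
    constructor
    · rintro ⟨h1, h2⟩
      by_cases h3 : v = a
      · exact Or.inl h3
      · exact Or.inr ⟨h1, by rintro (h4 | h4); exacts [h3 h4, h2 h4]⟩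
    · rintro (h1 | ⟨h1, h2⟩)
      · rw [h1]; exact ⟨h, ha⟩
      · exact ⟨h1, fun h3 => h2 (Or.inr h3)⟩
  rw [this, Finset.card_insert_of_notMem]
  intro hc
  exact (Finset.mem_sdiff.1 hc).2 (Finset.mem_insert_self _ _)

/-- **Bob's strategy on a system of groups.**  `G i` are disjoint cliques of size `N`, `nb i`
are groups completely joined to `G i`, `O i` is a large set of further common neighbours. -/
theorem bob {N K : ℕ} {G O : ι → Finset V} {e : ι → ℕ} {nb : ι → Finset ι}
    (hG : ∀ i, (G i).card = N) (hGd : ∀ i j, i ≠ j → Disjoint (G i) (G j))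
    (hOG : ∀ i j, Disjoint (O i) (G j))
    (hGG : ∀ i, ∀ v ∈ G i, ∀ w ∈ G i, v ≠ w → H.Adj v w)
    (hGO : ∀ i, ∀ v ∈ G i, ∀ w ∈ O i, H.Adj v w)
    (hnb : ∀ i, ∀ j ∈ nb i, j ≠ i ∧ ∀ v ∈ G i, ∀ w ∈ G j, H.Adj v w)
    (he : ∀ i, K ≤ (N - 1) + e i + (nb i).card * N)
    (hOe : ∀ i, e i ≤ (O i).card) (hOK : ∀ i, K ≤ (O i).card)
    {s : ℕ} {M : Finset V} (hA : AliceCan H s M)
    (hM : ∑ i, phi G O e M i + 1 ≤ ∑ i, psi G M i) : K + 1 ≤ s := by
  induction hA with
  | done M h =>
    exfalso
    have h0 : ∑ i, psi G M i = 0 := by
      apply Finset.sum_eq_zero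
      intro i _
      unfold psi
      rw [Finset.card_eq_zero, Finset.sdiff_eq_empty_iff_subset, h]
      exact Finset.subset_univ _
    omega
  | move M a ha hs hb hn ih =>
    have hphi : ∑ i, phi G O e (insert a M) i ≤ ∑ i, phi G O e M i :=
      Finset.sum_le_sum fun i _ => phi_anti G O e (Finset.subset_insert a M) i
    have hpsi : ∑ i, psi G M i ≤ ∑ i, psi G (insert a M) i + 1 := by
      by_cases hex : ∃ i, a ∈ G i
      · obtain ⟨i, hi⟩ := hex
        rw [← Finset.add_sum_erase _ _ (Finset.mem_univ i),
          ← Finset.add_sum_erase (a := i) _ _ (Finset.mem_univ i), psi_of_mem hi ha]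
        have : ∑ j ∈ Finset.univ.erase i, psi G M j =
            ∑ j ∈ Finset.univ.erase i, psi G (insert a M) j := by
          apply Finset.sum_congr rfl
          intro j hj
          have hij : i ≠ j := (Finset.ne_of_mem_erase hj).symm
          rw [psi_of_not (Finset.disjoint_left.1 (hGd i j hij) hi)]
        omega
      · refine le_trans (le_of_eq ?_) (Nat.le_succ _)
        apply Finset.sum_congr rfl
        intro j _
        rw [psi_of_not (fun h => hex ⟨j, h⟩)]
    by_cases hz : ∑ i, psi G (insert a M) i = 0
    · -- `a` is the last vertex of all groups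
      have h1 : ∑ i, phi G O e M i = 0 := by omega
      have hex : ∃ i, a ∈ G i := by
        by_contra hc
        have : ∑ i, psi G M i = ∑ i, psi G (insert a M) i := by
          apply Finset.sum_congr rfl
          intro j _
          rw [psi_of_not (fun h => hc ⟨j, h⟩)]
        omega
      obtain ⟨i, hi⟩ := hex
      have hfull : ∀ j, G j ⊆ insert a M := by
        intro j
        have := Finset.sum_eq_zero_iff.1 hz j (Finset.mem_univ j)
        unfold psi at this
        rw [Finset.card_eq_zero, Finset.sdiff_eq_empty_iff_subset] at this
        exact this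
      have hphi0 : phi G O e M i = 0 := Finset.sum_eq_zero_iff.1 h1 i (Finset.mem_univ i)
      unfold phi at hphi0
      rw [if_neg (fun h => ha (h hi))] at hphi0
      have hcount : (N - 1) + (O i ∩ M).card + (nb i).card * N ≤ marked H M a := by
        have e1 : ((G i).erase a).card = N - 1 := by
          rw [Finset.card_erase_of_mem hi, hG i]
        have e2 : ((nb i).biUnion G).card = (nb i).card * N := by
          rw [Finset.card_biUnion]
          · rw [Finset.sum_congr rfl (fun j _ => hG j), Finset.sum_const, smul_eq_mul]
          · intro j _ k _ hjk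
            exact hGd j k hjk
        have d1 : Disjoint ((G i).erase a) (O i ∩ M) := by
          rw [Finset.disjoint_left]
          intro v hv hv'
          exact Finset.disjoint_left.1 (hOG i i) (Finset.mem_inter.1 hv').1
            (Finset.mem_of_mem_erase hv)
        have d2 : Disjoint ((G i).erase a ∪ (O i ∩ M)) ((nb i).biUnion G) := by
          rw [Finset.disjoint_left]
          intro v hv hv'
          obtain ⟨j, hj, hvj⟩ := Finset.mem_biUnion.1 hv'
          rcases Finset.mem_union.1 hv with h | h
          · exact Finset.disjoint_left.1 (hGd i j (hnb i j hj).1.symm)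
              (Finset.mem_of_mem_erase h) hvj
          · exact Finset.disjoint_left.1 (hOG i j) (Finset.mem_inter.1 h).1 hvj
        rw [← e1, ← e2, ← Finset.card_union_of_disjoint d1, ← Finset.card_union_of_disjoint d2]
        apply Finset.card_le_card
        intro v hv
        rcases Finset.mem_union.1 hv with hv | hv
        · rcases Finset.mem_union.1 hv with hv | hv
          · obtain ⟨hva, hvG⟩ := Finset.mem_erase.1 hv
            refine Finset.mem_filter.2 ⟨?_, hGG i a hi v hvG hva.symm⟩
            rcases Finset.mem_insert.1 (hfull i hvG) with h | h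
            · exact absurd h hva
            · exact h
          · obtain ⟨hvO, hvM⟩ := Finset.mem_inter.1 hv
            exact Finset.mem_filter.2 ⟨hvM, hGO i a hi v hvO⟩
        · obtain ⟨j, hj, hvj⟩ := Finset.mem_biUnion.1 hv
          refine Finset.mem_filter.2 ⟨?_, (hnb i j hj).2 a hi v hvj⟩
          rcases Finset.mem_insert.1 (hfull j hvj) with h | h
          · exfalso
            exact Finset.disjoint_left.1 (hGd i j (hnb i j hj).1.symm) hi (h ▸ hvj)
          · exact h
      have := he i
      omega
    · by_cases hpos : ∃ i, phi G O e (insert a M) i ≠ 0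
      · obtain ⟨i, hi⟩ := hpos
        have hnot : ¬ G i ⊆ insert a M := by
          intro h
          apply hi
          unfold phi
          rw [if_pos h]
        have hlt : (O i ∩ insert a M).card < e i := by
          unfold phi at hi
          rw [if_neg hnot] at hi
          omega
        obtain ⟨b, hbO, hbM⟩ : ∃ b ∈ O i, b ∉ insert a M := by
          by_contra hc
          push Not at hc
          have : O i ∩ insert a M = O i := Finset.inter_eq_left.2 hc
          rw [this] at hlt
          have := hOe i
          omega
        refine ih b hbM ?_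
        have hp1 : ∑ j, psi G (insert b (insert a M)) j = ∑ j, psi G (insert a M) j := by
          apply Finset.sum_congr rfl
          intro j _
          rw [psi_of_not (Finset.disjoint_left.1 (hOG i j) hbO)]
        have hp2 : ∑ j, phi G O e (insert b (insert a M)) j + 1 ≤
            ∑ j, phi G O e (insert a M) j := by
          rw [← Finset.add_sum_erase _ _ (Finset.mem_univ i),
            ← Finset.add_sum_erase (a := i) _ _ (Finset.mem_univ i)]
          have h5 : phi G O e (insert b (insert a M)) i + 1 ≤ phi G O e (insert a M) i := by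
            unfold phi
            rw [if_neg hnot, if_neg]
            · have h6 : O i ∩ insert b (insert a M) = insert b (O i ∩ insert a M) := by
                ext v
                simp only [Finset.mem_inter, Finset.mem_insert]
                constructor
                · rintro ⟨h1, h2 | h2⟩
                  · exact Or.inl h2
                  · exact Or.inr ⟨h1, h2⟩
                · rintro (h1 | ⟨h1, h2⟩)
                  · rw [h1]; exact ⟨hbO, Or.inl rfl⟩
                  · exact ⟨h1, Or.inr h2⟩
              rw [h6, Finset.card_insert_of_notMem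
                (fun h => hbM (Finset.mem_inter.1 h).2)]
              omega
            · intro h
              apply hnot
              intro v hv
              rcases Finset.mem_insert.1 (h hv) with h7 | h7
              · exact absurd (h7 ▸ hv) (Finset.disjoint_left.1 (hOG i i) hbO)
              · exact h7
          have h6 : ∑ j ∈ Finset.univ.erase i, phi G O e (insert b (insert a M)) j ≤
              ∑ j ∈ Finset.univ.erase i, phi G O e (insert a M) j :=
            Finset.sum_le_sum fun j _ => phi_anti G O e (Finset.subset_insert b _) j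
          omega
        omega
      · push Not at hpos
        have hsum0 : ∑ i, phi G O e (insert a M) i = 0 := Finset.sum_eq_zero fun i _ => hpos i
        obtain ⟨i, -, hi⟩ := Finset.exists_ne_zero_of_sum_ne_zero hz
        obtain ⟨v, hv⟩ : (G i \ insert a M).Nonempty := by
          rw [← Finset.card_pos]
          exact Nat.pos_of_ne_zero hi
        obtain ⟨hvG, hvM⟩ := Finset.mem_sdiff.1 hv
        by_cases hO : O i ⊆ insert a M
        · have h1 := hb v hvM
          have h2 : (O i).card ≤ marked H (insert a M) v := by
            apply Finset.card_le_card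
            intro w hw
            exact Finset.mem_filter.2 ⟨hO hw, hGO i v hvG w hw⟩
          have := hOK i
          omega
        · obtain ⟨b, hbO, hbM⟩ := Finset.not_subset.1 hO
          refine ih b hbM ?_
          have hp1 : ∑ j, psi G (insert b (insert a M)) j = ∑ j, psi G (insert a M) j := by
            apply Finset.sum_congr rfl
            intro j _
            rw [psi_of_not (Finset.disjoint_left.1 (hOG i j) hbO)]
          have hp2 : ∑ j, phi G O e (insert b (insert a M)) j ≤
              ∑ j, phi G O e (insert a M) j :=
            Finset.sum_le_sum fun j _ => phi_anti G O e (Finset.subset_insert b _) j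
          omega

end

end MP_a51cbc_co
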