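import Mathlib

/-! Definitions for the marking game on powers of forests (MP_a51cbc_co). -/

open Classical

namespace MP_a51cbc_co

/-- The `m`-th power of `G`: distinct vertices are adjacent iff their distance in `G` is at
most `m` (`edist` is `⊤` between different components). -/
def power {V : Type*} (G : SimpleGraph V) (m : ℕ) : SimpleGraph V where
  Adj u v := u ≠ v ∧ G.edist u v ≤ (m : ℕ∞)
  symm := ⟨fun u v h => ⟨h.1.symm, by rw [SimpleGraph.edist_comm]; exact h.2⟩⟩
  loopless := ⟨fun u h => h.1 rfl⟩

/-- The number of neighbours of `v` in the set `M` of marked vertices. -/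
noncomputable def marked {V : Type*} (H : SimpleGraph V) (M : Finset V) (v : V) : ℕ :=
  (M.filter fun w => H.Adj v w).card

/-- `AliceCan H s M`: in the marking game on `H`, in the position where exactly the vertices of
`M` are marked and Alice is to move, Alice has a strategy guaranteeing that every vertex `v`
marked from now on (by either player) satisfies `1 + #(neighbours marked before v) ≤ s`. -/
inductive AliceCan {V : Type*} [Fintype V] (H : SimpleGraph V) (s : ℕ) : Finset V → Prop
  | done (M : Finset V) (h : M = Finset.univ) : AliceCan H s M
  | move (M : Finset V) (a : V) (ha : a ∉ M) (hs : 1 + marked H M a ≤ s)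
      (hb : ∀ b, b ∉ insert a M → 1 + marked H (insert a M) b ≤ s)
      (hn : ∀ b, b ∉ insert a M → AliceCan H s (insert b (insert a M))) : AliceCan H s M

/-- The game colouring number: the least score that Alice, moving first, can guarantee. -/
noncomputable def colg {V : Type*} [Fintype V] (H : SimpleGraph V) : ℕ :=
  sInf {s | AliceCan H s ∅}

theorem marked_mono {V : Type*} (H : SimpleGraph V) {M M' : Finset V} (h : M ⊆ M') (v : V) :
    marked H M v ≤ marked H M' v :=
  Finset.card_le_card (Finset.filter_subset_filter _ h)

theorem marked_le_card {V : Type*} [Fintype V] (H : SimpleGraph V) {M : Finset V} {v : V}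
    (hv : v ∉ M) : 1 + marked H M v ≤ Fintype.card V := by
  have h1 : (M.filter fun w => H.Adj v w).card ≤ M.card := Finset.card_filter_le _ _
  have h2 : M.card < Fintype.card V := by
    rw [← Finset.card_univ]
    exact Finset.card_lt_card ⟨Finset.subset_univ _, fun h => hv (h (Finset.mem_univ v))⟩
  unfold marked
  omega

/-- Alice can always guarantee `|V|`. -/
theorem aliceCan_card {V : Type*} [Fintype V] (H : SimpleGraph V) (n : ℕ) :
    ∀ M : Finset V, Fintype.card V - M.card = n → AliceCan H (Fintype.card V) M := by
  induction n using Nat.strong_induction_on with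
  | _ n ih =>
    intro M hM
    by_cases hu : M = Finset.univ
    · exact AliceCan.done M hu
    · obtain ⟨a, ha⟩ : ∃ a, a ∉ M := by
        by_contra hc
        push Not at hc
        exact hu (Finset.eq_univ_of_forall hc)
      refine AliceCan.move M a ha (marked_le_card H ha) (fun b hb => marked_le_card H hb) ?_
      intro b hb
      have hc1 : (insert a M).card = M.card + 1 := Finset.card_insert_of_notMem ha
      have hc2 : (insert b (insert a M)).card = (insert a M).card + 1 :=
        Finset.card_insert_of_notMem hb
      have hc3 : (insert b (insert a M)).card ≤ Fintype.card V := Finset.card_le_univ _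
      exact ih _ (by omega) _ rfl

theorem aliceCan_nonempty {V : Type*} [Fintype V] (H : SimpleGraph V) :
    {s | AliceCan H s ∅}.Nonempty :=
  ⟨_, aliceCan_card H _ ∅ rfl⟩

theorem colg_le {V : Type*} [Fintype V] {H : SimpleGraph V} {s : ℕ} (h : AliceCan H s ∅) :
    colg H ≤ s := Nat.sInf_le h

theorem le_colg {V : Type*} [Fintype V] {H : SimpleGraph V} {k : ℕ}
    (h : ∀ s, AliceCan H s ∅ → k ≤ s) : k ≤ colg H :=
  h _ (Nat.sInf_mem (aliceCan_nonempty H))

end MP_a51cbc_co
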