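import Pool.Agent.Lib.MP_a51cbc_co.Trees

/-! Lower bounds for the game colouring number of powers of forests. -/

open Classical

namespace MP_a51cbc_co

theorem power_adj_of {V : Type*} {G : SimpleGraph V} {m : ℕ} {u v : V} (h : u ≠ v)
    (h2 : G.edist u v ≤ (m : ℕ∞)) : (power G m).Adj u v := ⟨h, h2⟩

theorem lower_even (k h : ℕ) : ∃ (V : Type) (_ : Fintype V) (F : SimpleGraph V),
    F.IsAcyclic ∧ (∀ v, (F.neighborSet v).ncard ≤ 1 + k) ∧ k ^ h ≤ colg (power F (2 * h)) := by
  refine ⟨Unit × Nd k h, inferInstance, att id (fun _ => 0) k h, pg_acyclic _ _, ?_, ?_⟩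
  · intro v
    refine att_degree (c := 0) ?_ v
    intro t
    have : {t' : Unit | id t' = t ∧ 0 = 0 + 1} = ∅ := by
      ext t'
      simp
    rw [this, Set.ncard_empty]
  · apply le_colg
    intro s hs
    by_cases hz : k ^ h = 0
    · omega
    · have := clique_le (Q := leaves k h ()) (H := power (att id (fun _ => 0) k h) (2 * h))
        ?_ hs ?_
      · rwa [leaves_card] at this
      · intro v hv w hw hvw
        exact power_adj_of hvw (leaves_same hv hw)
      · intro hsub
        have h0 : leaves k h () = ∅ := Finset.subset_empty.1 hsub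
        have h1 := leaves_card (k := k) (h := h) ()
        rw [h0, Finset.card_empty] at h1
        omega

section odd

variable (n : ℕ)

def pP (t : Fin n × Fin 5) : Fin n × Fin 5 :=
  if t.2 = 0 then (⟨t.1.val - 1, lt_of_le_of_lt (Nat.sub_le _ _) t.1.2⟩, 0) else (t.1, 0)

def tP (t : Fin n × Fin 5) : ℕ := t.1.val + if t.2 = 0 then 0 else 1

theorem pP_children (t : Fin n × Fin 5) : {t' | pP n t' = t ∧
    tP n t' = tP n t + 1}.ncard ≤ 5 := by
  have h5 : (Set.univ : Set (Fin 5)).ncard = 5 := by rw [Set.ncard_univ, Nat.card_fin]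
  refine le_trans (Set.ncard_le_ncard_of_injOn (t := (Set.univ : Set (Fin 5)))
    (fun t' => t'.2) (fun _ _ => Set.mem_univ _) ?_ Set.finite_univ) (le_of_eq h5)
  intro a ha b hb hab
  obtain ⟨ha1, ha2⟩ := ha
  obtain ⟨hb1, hb2⟩ := hb
  simp only at hab
  have ht : t.2 = 0 := by
    rw [← ha1]
    unfold pP
    split_ifs <;> rfl
  refine Prod.ext ?_ hab
  apply Fin.ext
  unfold tP at ha2 hb2
  rw [hab] at ha2
  split_ifs at ha2 hb2 <;> omega

theorem adj_path {s s' : Fin n} (h : s.val = s'.val + 1) :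
    (s', (0 : Fin 5)) = pP n (s, 0) ∧ tP n (s, 0) = tP n (s', 0) + 1 := by
  constructor
  · unfold pP
    rw [if_pos rfl]
    refine Prod.ext (Fin.ext ?_) rfl
    show s'.val = s.val - 1
    omega
  · unfold tP
    simp only [if_true]
    omega

theorem adj_out (s : Fin n) {i : Fin 5} (hi : i ≠ 0) :
    (s, (0 : Fin 5)) = pP n (s, i) ∧ tP n (s, i) = tP n (s, 0) + 1 := by
  constructor
  · unfold pP
    rw [if_neg hi]
  · unfold tP
    simp only [if_true, if_neg hi]

theorem lower_odd (k h : ℕ) (hk : 1 ≤ k) : ∃ (V : Type) (_ : Fintype V) (F : SimpleGraph V),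
    F.IsAcyclic ∧ (∀ v, (F.neighborSet v).ncard ≤ 6 + k) ∧
      4 * k ^ h ≤ colg (power F (2 * h + 1)) + 1 := by
  have hN : 1 ≤ k ^ h := Nat.one_le_pow _ _ hk
  obtain ⟨N, hNdef⟩ : ∃ N, N = k ^ h := ⟨_, rfl⟩
  rw [← hNdef] at hN ⊢
  refine ⟨(Fin (2 * N + 1) × Fin 5) × Nd k h, inferInstance,
    att (pP (2 * N + 1)) (tP (2 * N + 1)) k h, pg_acyclic _ _, ?_, ?_⟩
  · intro v
    have := att_degree (c := 5) (pP_children (2 * N + 1)) v
    omega
  · suffices hsuf : (4 * N - 2) + 1 ≤
        colg (power (att (pP (2 * N + 1)) (tP (2 * N + 1)) k h) (2 * h + 1)) by omega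
    apply le_colg
    intro s hs
    let G : Fin (2 * N + 1) → Finset ((Fin (2 * N + 1) × Fin 5) × Nd k h) :=
      fun i => leaves k h (i, 0)
    let O : Fin (2 * N + 1) → Finset ((Fin (2 * N + 1) × Fin 5) × Nd k h) :=
      fun i => (Finset.univ.filter fun j : Fin 5 => j ≠ 0).biUnion fun j => leaves k h (i, j)
    let e : Fin (2 * N + 1) → ℕ := fun i =>
      (N - 1) + ((if i = 0 then N else 0) + (if i = Fin.last (2 * N) then N else 0))
    let nb : Fin (2 * N + 1) → Finset (Fin (2 * N + 1)) := fun i =>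
      Finset.univ.filter fun j => j.val + 1 = i.val ∨ i.val + 1 = j.val
    have hG : ∀ i, (G i).card = N := fun i => (leaves_card _).trans hNdef.symm
    have hOc : ∀ i, (O i).card = 4 * N := by
      intro i
      have h1 : (Finset.univ.filter fun j : Fin 5 => j ≠ 0).card = 4 := by decide
      show ((Finset.univ.filter fun j : Fin 5 => j ≠ 0).biUnion
        fun j => leaves k h (i, j)).card = 4 * N
      rw [Finset.card_biUnion]
      · rw [Finset.sum_congr rfl (fun j _ => leaves_card (k := k) (h := h) (i, j)),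
          Finset.sum_const, smul_eq_mul, h1, hNdef]
      · intro j _ j' _ hjj
        exact leaves_disj (fun hc => hjj (Prod.mk.inj hc).2)
    have hGd : ∀ i j, i ≠ j → Disjoint (G i) (G j) := fun i j hij =>
      leaves_disj (fun hc => hij (Prod.mk.inj hc).1)
    have hOG : ∀ i j, Disjoint (O i) (G j) := by
      intro i j
      rw [Finset.disjoint_left]
      intro v hv hv'
      obtain ⟨x, hx, hvx⟩ := Finset.mem_biUnion.1 hv
      have h1 := (leaves_fst hvx).1.symm.trans (leaves_fst hv').1
      exact (Finset.mem_filter.1 hx).2 (Prod.mk.inj h1).2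
    have hle : ((2 * h : ℕ) : ℕ∞) ≤ ((2 * h + 1 : ℕ) : ℕ∞) := by
      exact_mod_cast Nat.le_succ _
    have hGG : ∀ i, ∀ v ∈ G i, ∀ w ∈ G i, v ≠ w →
        (power (att (pP (2 * N + 1)) (tP (2 * N + 1)) k h) (2 * h + 1)).Adj v w :=
      fun i v hv w hw hvw => power_adj_of hvw (le_trans (leaves_same hv hw) hle)
    have hGO : ∀ i, ∀ v ∈ G i, ∀ w ∈ O i,
        (power (att (pP (2 * N + 1)) (tP (2 * N + 1)) k h) (2 * h + 1)).Adj v w := by
      intro i v hv w hw
      have hne : v ≠ w := fun hc => Finset.disjoint_left.1 (hOG i i) hw (hc ▸ hv)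
      obtain ⟨x, hx, hwx⟩ := Finset.mem_biUnion.1 hw
      have := leaves_adj (adj_out (2 * N + 1) i (Finset.mem_filter.1 hx).2) hwx hv
      exact (power_adj_of hne.symm this).symm
    have hnb : ∀ i, ∀ j ∈ nb i, j ≠ i ∧ ∀ v ∈ G i, ∀ w ∈ G j,
        (power (att (pP (2 * N + 1)) (tP (2 * N + 1)) k h) (2 * h + 1)).Adj v w := by
      intro i j hj
      have hj' : j.val + 1 = i.val ∨ i.val + 1 = j.val := (Finset.mem_filter.1 hj).2
      have hji : j ≠ i := fun hc => by rw [hc] at hj'; omega
      refine ⟨hji, ?_⟩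
      intro v hv w hw
      have hne : v ≠ w := fun hc => Finset.disjoint_left.1 (hGd j i hji) hw (hc ▸ hv)
      rcases hj' with h1 | h1
      · exact power_adj_of hne (leaves_adj (adj_path (2 * N + 1) h1.symm) hv hw)
      · exact (power_adj_of hne.symm (leaves_adj (adj_path (2 * N + 1) h1.symm) hw hv)).symm
    have hcard1 : ∀ i : Fin (2 * N + 1), i ≠ 0 → ∃ j ∈ nb i, j.val + 1 = i.val := by
      intro i hi
      have hi' : i.val ≠ 0 := fun hc => hi (Fin.ext hc)
      refine ⟨⟨i.val - 1, by omega⟩, Finset.mem_filter.2 ⟨Finset.mem_univ _, Or.inl ?_⟩, ?_⟩ <;>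
      · show i.val - 1 + 1 = i.val
        omega
    have hcard2 : ∀ i : Fin (2 * N + 1), i ≠ Fin.last (2 * N) →
        ∃ j ∈ nb i, i.val + 1 = j.val := by
      intro i hi
      have hi' : i.val ≠ 2 * N := fun hc => hi (Fin.ext hc)
      have := i.2
      exact ⟨⟨i.val + 1, by omega⟩, Finset.mem_filter.2 ⟨Finset.mem_univ _, Or.inr rfl⟩, rfl⟩
    have hlast0 : (Fin.last (2 * N)).val = 2 * N := rfl
    have he : ∀ i, 4 * N - 2 ≤ (N - 1) + e i + (nb i).card * N := by
      intro i
      show 4 * N - 2 ≤ (N - 1) + ((N - 1) + ((if i = 0 then N else 0) +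
        (if i = Fin.last (2 * N) then N else 0))) + (nb i).card * N
      by_cases h0 : i = 0
      · have hne : i ≠ Fin.last (2 * N) := by
          intro hc
          have : i.val = 0 := by rw [h0]; rfl
          rw [hc] at this
          omega
        obtain ⟨j, hj, -⟩ := hcard2 i hne
        have h1 : 1 ≤ (nb i).card := Finset.card_pos.2 ⟨j, hj⟩
        have h2 : 1 * N ≤ (nb i).card * N := Nat.mul_le_mul_right _ h1
        rw [if_pos h0, if_neg hne]
        omega
      · by_cases hl : i = Fin.last (2 * N)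
        · obtain ⟨j, hj, -⟩ := hcard1 i h0
          have h1 : 1 ≤ (nb i).card := Finset.card_pos.2 ⟨j, hj⟩
          have h2 : 1 * N ≤ (nb i).card * N := Nat.mul_le_mul_right _ h1
          rw [if_neg h0, if_pos hl]
          omega
        · obtain ⟨j, hj, hj1⟩ := hcard1 i h0
          obtain ⟨j', hj', hj2⟩ := hcard2 i hl
          have hjj : j ≠ j' := fun hc => by rw [hc] at hj1; omega
          have h1 : 2 ≤ (nb i).card := by
            refine le_trans (le_of_eq (Finset.card_pair hjj).symm) ?_
            apply Finset.card_le_card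
            intro x hx
            rcases Finset.mem_insert.1 hx with h3 | h3
            · rw [h3]; exact hj
            · rw [Finset.mem_singleton.1 h3]; exact hj'
          have h2 : 2 * N ≤ (nb i).card * N := Nat.mul_le_mul_right _ h1
          rw [if_neg h0, if_neg hl]
          omega
    have hOe : ∀ i, e i ≤ (O i).card := by
      intro i
      rw [hOc]
      show (N - 1) + ((if i = 0 then N else 0) + (if i = Fin.last (2 * N) then N else 0)) ≤ 4 * N
      split_ifs <;> omega
    have hOK : ∀ i, 4 * N - 2 ≤ (O i).card := fun i => by rw [hOc]; omega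
    refine bob hG hGd hOG hGG hGO hnb he hOe hOK hs ?_
    have hphi : ∑ i, phi G O e ∅ i ≤ ∑ i, e i := by
      apply Finset.sum_le_sum
      intro i _
      exact phi_le G O e ∅ i
    have hpsi : ∑ i, psi G ∅ i = (2 * N + 1) * N := by
      have : ∀ i ∈ Finset.univ, psi G ∅ i = N := by
        intro i _
        rw [psi_empty, hG]
      rw [Finset.sum_congr rfl this, Finset.sum_const, Finset.card_univ, Fintype.card_fin,
        smul_eq_mul]
    have hesum : ∑ i, e i = (2 * N + 1) * (N - 1) + (N + N) := by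
      show ∑ i : Fin (2 * N + 1), ((N - 1) + ((if i = 0 then N else 0) +
        (if i = Fin.last (2 * N) then N else 0))) = _
      rw [Finset.sum_add_distrib, Finset.sum_add_distrib, Finset.sum_const, Finset.card_univ,
        Fintype.card_fin, smul_eq_mul, Finset.sum_ite_eq' Finset.univ (0 : Fin (2 * N + 1)),
        Finset.sum_ite_eq' Finset.univ (Fin.last (2 * N)), if_pos (Finset.mem_univ _),
        if_pos (Finset.mem_univ _)]
    rw [hpsi]
    have hfin : (2 * N + 1) * (N - 1) + (N + N) + 1 = (2 * N + 1) * N := by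
      obtain ⟨N', rfl⟩ : ∃ N', N = N' + 1 := ⟨N - 1, by omega⟩
      rw [Nat.add_sub_cancel]
      ring
    omega

end odd

end MP_a51cbc_co
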