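import Pool.Agent.Lib.MP_a51cbc_co.Defs

/-! Rooted structure of a forest. -/

open Classical

namespace MP_a51cbc_co

/-- `p` is the parent map and `d` the depth. -/
structure Rooted {V : Type*} (F : SimpleGraph V) (p : V → V) (d : V → ℕ) : Prop where
  edge : ∀ u v, F.Adj u v → (p u = v ∧ d u = d v + 1) ∨ (p v = u ∧ d v = d u + 1)
  par : ∀ u, d u ≠ 0 → F.Adj u (p u) ∧ d u = d (p u) + 1

section

variable {V : Type*} {F : SimpleGraph V}

noncomputable def root (F : SimpleGraph V) (v : V) : V := (F.connectedComponentMk v).out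

theorem root_reach (F : SimpleGraph V) (v : V) : F.Reachable (root F v) v := by
  have h : F.connectedComponentMk (root F v) = F.connectedComponentMk v := Quot.out_eq _
  exact SimpleGraph.ConnectedComponent.exact h

theorem root_adj {u v : V} (h : F.Adj u v) : root F u = root F v := by
  have : F.connectedComponentMk u = F.connectedComponentMk v :=
    SimpleGraph.ConnectedComponent.sound h.reachable
  unfold root
  rw [this]

noncomputable def dep (F : SimpleGraph V) (v : V) : ℕ := F.dist (root F v) v

theorem dep_adj (hF : F.IsAcyclic) {u v : V} (h : F.Adj u v) :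
    dep F u = dep F v + 1 ∨ dep F v = dep F u + 1 := by
  have h1 := hF.dist_eq_dist_add_one_of_adj_of_reachable (root F u) h (root_reach F u)
  unfold dep
  rw [← root_adj h]
  exact h1

theorem par_unique (hF : F.IsAcyclic) {v u u' : V} (h : F.Adj v u) (h' : F.Adj v u')
    (hd : dep F v = dep F u + 1) (hd' : dep F v = dep F u' + 1) : u = u' := by
  have key : ∀ (q : F.Walk (root F v) v), q.IsPath → ∀ x, F.Adj v x → dep F v = dep F x + 1 →
      x = q.penultimate := by
    intro q hq x hx hdx
    apply hF.eq_penultimate_of_adj_end hq hx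
    have hr : F.Reachable (root F v) x := by
      rw [root_adj hx]; exact root_reach F x
    obtain ⟨t, ht, hlen⟩ := hr.exists_path_of_dist
    refine hF.mem_support_of_ne_mem_support_of_adj_of_isPath hq ht hx ?_
    intro hvt
    have h1 : F.dist (root F v) v ≤ (t.takeUntil v hvt).length := SimpleGraph.dist_le _
    have h2 := t.length_takeUntil_le_length hvt
    have h3 : dep F x = t.length := by
      unfold dep
      rw [hlen, root_adj hx]
    have h4 : dep F v = F.dist (root F v) v := rfl
    omega
  obtain ⟨q, hq, -⟩ := (root_reach F v).exists_path_of_dist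
  rw [key q hq u h hd, key q hq u' h' hd']

theorem exists_par {u : V} (hF : F.IsAcyclic) (hu : dep F u ≠ 0) :
    ∃ w, F.Adj u w ∧ dep F u = dep F w + 1 := by
  obtain ⟨q, hq⟩ := (root_reach F u).exists_walk_length_eq_dist
  have hlen : q.reverse.length = dep F u := by
    rw [SimpleGraph.Walk.length_reverse, hq]; rfl
  have key : ∀ (x : V) (t : F.Walk u x), x = root F u → t.length = dep F u →
      ∃ w, F.Adj u w ∧ dep F u = dep F w + 1 := by
    intro x t hx ht
    cases t with
    | nil => exact absurd ht.symm hu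
    | @cons _ w _ h t' =>
      refine ⟨w, h, ?_⟩
      rcases dep_adj hF h with h1 | h1
      · exact h1
      · exfalso
        have h2 : F.dist x w ≤ t'.length := by
          rw [SimpleGraph.dist_comm]; exact SimpleGraph.dist_le _
        have h3 : dep F w = F.dist x w := by
          unfold dep
          rw [← root_adj h, hx]
        rw [SimpleGraph.Walk.length_cons] at ht
        omega
  exact key _ q.reverse rfl hlen

theorem exists_rooted (hF : F.IsAcyclic) : ∃ (p : V → V) (d : V → ℕ), Rooted F p d := by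
  let p : V → V := fun v =>
    if h : ∃ w, F.Adj v w ∧ dep F v = dep F w + 1 then h.choose else v
  have hp : ∀ v w, F.Adj v w → dep F v = dep F w + 1 → p v = w := by
    intro v w h1 h2
    have hex : ∃ w, F.Adj v w ∧ dep F v = dep F w + 1 := ⟨w, h1, h2⟩
    have h3 : p v = hex.choose := dif_pos hex
    rw [h3]
    exact par_unique hF hex.choose_spec.1 h1 hex.choose_spec.2 h2
  refine ⟨p, dep F, ⟨?_, ?_⟩⟩
  · intro u v h
    rcases dep_adj hF h with h1 | h1
    · exact Or.inl ⟨hp u v h h1, h1⟩
    · exact Or.inr ⟨hp v u h.symm h1, h1⟩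
  · intro u hu
    obtain ⟨w, h1, h2⟩ := exists_par hF hu
    rw [hp u w h1 h2]
    exact ⟨h1, h2⟩

/-- A walk of length `n` yields a common ancestor. -/
theorem walk_anc {p : V → V} {d : V → ℕ} (hR : Rooted F p d) {v u : V} (w : F.Walk v u) :
    ∃ i j, i + j ≤ w.length ∧ p^[i] v = p^[j] u ∧ d v = d (p^[i] v) + i ∧
      d u = d (p^[i] v) + j := by
  induction w with
  | nil => exact ⟨0, 0, le_rfl, rfl, rfl, rfl⟩
  | @cons v v' u h t ih =>
    obtain ⟨i, j, hij, h1, h2, h3⟩ := ih
    rcases hR.edge v v' h with ⟨h4, h5⟩ | ⟨h4, h5⟩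
    · refine ⟨i + 1, j, ?_, ?_, ?_, ?_⟩
      · rw [SimpleGraph.Walk.length_cons]; omega
      · rw [Function.iterate_succ_apply, h4]; exact h1
      · rw [Function.iterate_succ_apply, h4]; omega
      · rw [Function.iterate_succ_apply, h4]; exact h3
    · cases i with
      | zero =>
        refine ⟨0, j + 1, ?_, ?_, rfl, ?_⟩
        · rw [SimpleGraph.Walk.length_cons]; omega
        · rw [Function.iterate_succ_apply', ← h1]
          exact h4.symm
        · have h6 : d (p^[0] v') = d v' := rfl
          have h7 : d (p^[0] v) = d v := rfl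
          omega
      | succ i =>
        refine ⟨i, j, ?_, ?_, ?_, ?_⟩
        · rw [SimpleGraph.Walk.length_cons]; omega
        · rw [Function.iterate_succ_apply, h4] at h1; exact h1
        · rw [Function.iterate_succ_apply, h4] at h2; omega
        · rw [Function.iterate_succ_apply, h4] at h3; exact h3

variable [Fintype V]

/-- descendants of `c` at depth `j` below `c` -/
noncomputable def desc (p : V → V) (d : V → ℕ) (c : V) (j : ℕ) : Finset V :=
  Finset.univ.filter fun u => p^[j] u = c ∧ d u = d c + j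

theorem desc_card {p : V → V} {d : V → ℕ} (hR : Rooted F p d) {Δ : ℕ}
    (hΔ : ∀ v, (F.neighborSet v).ncard ≤ Δ) (c : V) (j : ℕ) : (desc p d c j).card ≤ Δ ^ j := by
  induction j with
  | zero =>
    rw [pow_zero]
    refine le_trans (Finset.card_le_card (t := {c}) ?_) (by rw [Finset.card_singleton])
    intro u hu
    exact Finset.mem_singleton.2 (Finset.mem_filter.1 hu).2.1
  | succ j ih =>
    rw [pow_succ']
    refine le_trans ?_ (Nat.mul_le_mul_left Δ ih)
    apply Finset.card_le_mul_card_image_of_maps_to (f := p)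
    · intro u hu
      obtain ⟨-, h1, h2⟩ := Finset.mem_filter.1 hu
      have h3 := (hR.par u (by omega)).2
      rw [Function.iterate_succ_apply] at h1
      exact Finset.mem_coe.2 (Finset.mem_filter.2 ⟨Finset.mem_univ _, h1, by omega⟩)
    · intro e _
      have h0 : (F.neighborSet e).ncard = (Finset.univ.filter fun u => F.Adj e u).card := by
        rw [← Set.ncard_coe_finset]
        congr 1
        ext u
        simp
      refine le_trans (Finset.card_le_card ?_) (h0 ▸ hΔ e)
      intro u hu
      obtain ⟨hu1, hu2⟩ := Finset.mem_filter.1 hu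
      obtain ⟨-, h1, h2⟩ := Finset.mem_filter.1 hu1
      have h3 := (hR.par u (by omega)).1
      rw [hu2] at h3
      exact Finset.mem_filter.2 ⟨Finset.mem_univ _, h3.symm⟩

noncomputable def wide (p : V → V) (d : V → ℕ) (v : V) (a b : ℕ) : Finset V :=
  (Finset.range a ×ˢ Finset.range b).biUnion fun ij => desc p d (p^[ij.1] v) ij.2

theorem mem_wide {p : V → V} {d : V → ℕ} {v z : V} {a b i j : ℕ} (hi : i < a) (hj : j < b)
    (h1 : p^[j] z = p^[i] v) (h2 : d z = d (p^[i] v) + j) : z ∈ wide p d v a b := by
  refine Finset.mem_biUnion.2 ⟨(i, j), ?_, Finset.mem_filter.2 ⟨Finset.mem_univ _, h1, h2⟩⟩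
  exact Finset.mem_product.2 ⟨Finset.mem_range.2 hi, Finset.mem_range.2 hj⟩

theorem wide_card {p : V → V} {d : V → ℕ} (hR : Rooted F p d) {Δ : ℕ} (h1 : 1 ≤ Δ)
    (hΔ : ∀ v, (F.neighborSet v).ncard ≤ Δ) (v : V) (a b : ℕ) :
    (wide p d v a b).card ≤ a * b * Δ ^ (b - 1) := by
  refine le_trans (Finset.card_biUnion_le) ?_
  refine le_trans (Finset.sum_le_card_nsmul _ _ (Δ ^ (b - 1)) ?_) ?_
  · intro ij hij
    refine le_trans (desc_card hR hΔ _ _) (Nat.pow_le_pow_right h1 ?_)
    have := Finset.mem_range.1 (Finset.mem_product.1 hij).2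
    omega
  · rw [Finset.card_product, Finset.card_range, Finset.card_range, smul_eq_mul]

theorem power_rel {p : V → V} {d : V → ℕ} (hR : Rooted F p d) {m : ℕ} {v u : V}
    (h : (power F m).Adj v u) : ∃ i j, i + j ≤ m ∧ p^[i] v = p^[j] u ∧
      d v = d (p^[i] v) + i ∧ d u = d (p^[i] v) + j := by
  have h1 : F.edist v u ≤ (m : ℕ∞) := h.2
  have h2 : F.edist v u ≠ ⊤ := ne_top_of_le_ne_top (ENat.natCast_ne_top m) h1
  obtain ⟨w, hw⟩ := SimpleGraph.exists_walk_of_edist_ne_top h2
  rw [← hw] at h1
  have h3 : w.length ≤ m := by exact_mod_cast h1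
  obtain ⟨i, j, h4, h5⟩ := walk_anc hR w
  exact ⟨i, j, h4.trans h3, h5⟩

end

end MP_a51cbc_co
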