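import Pool.Agent.Lib.MP_a51cbc_co.Bob

/-! Forests given by a parent map; attaching regular trees to a base forest. -/

open Classical

namespace MP_a51cbc_co

section pgraph

variable {V : Type*}

/-- the forest with parent map `p` and height function `f` -/
def pg (p : V → V) (f : V → ℕ) : SimpleGraph V where
  Adj u v := (p u = v ∧ f u = f v + 1) ∨ (p v = u ∧ f v = f u + 1)
  symm := ⟨fun _ _ h => h.symm⟩
  loopless := ⟨fun u h => by rcases h with h | h <;> omega⟩

theorem pg_acyclic (p : V → V) (f : V → ℕ) : (pg p f).IsAcyclic := by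
  intro v c hc
  have hne : c.support.toFinset.Nonempty := ⟨v, by simp⟩
  obtain ⟨x, hx, hmax⟩ := Finset.exists_max_image c.support.toFinset f hne
  rw [List.mem_toFinset] at hx
  have hc' : (c.rotate x hx).IsCycle := (SimpleGraph.Walk.isCycle_rotate hx).2 hc
  have hsupp : ∀ y ∈ (c.rotate x hx).support, f y ≤ f x := by
    intro y hy
    apply hmax
    rw [List.mem_toFinset]
    by_cases hyx : y = x
    · rw [hyx]; exact hx
    · have h1 : y ∈ (c.rotate x hx).support.tail := by
        have h2 := hy
        rw [← SimpleGraph.Walk.cons_tail_support] at h2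
        rcases List.mem_cons.1 h2 with h | h
        · exact absurd h hyx
        · exact h
      have h3 := (SimpleGraph.Walk.support_rotate c x hx).perm.mem_iff.1 h1
      exact List.mem_of_mem_tail h3
  have hpar : ∀ y, (pg p f).Adj x y → f y ≤ f x → y = p x := by
    intro y hy hle
    rcases hy with h | h
    · exact h.1.symm
    · omega
  have h1 : (c.rotate x hx).snd = p x :=
    hpar _ ((c.rotate x hx).adj_snd hc'.not_nil)
      (hsupp _ ((c.rotate x hx).getVert_mem_support _))
  have h2 : (c.rotate x hx).penultimate = p x :=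
    hpar _ ((c.rotate x hx).adj_penultimate hc'.not_nil).symm
      (hsupp _ ((c.rotate x hx).getVert_mem_support _))
  exact hc'.snd_ne_penultimate (h1.trans h2.symm)

end pgraph

section attach

/-- nodes of the `k`-ary tree of depth `h` -/
abbrev Nd (k h : ℕ) : Type := {l : List (Fin k) // l.length ≤ h}

noncomputable instance (k h : ℕ) : Fintype (Nd k h) := (List.finite_length_le (Fin k) h).fintype

variable {T : Type*} (pT : T → T) (τ : T → ℕ) (k h : ℕ)

/-- parent map of the base forest with a `k`-ary tree of depth `h` attached to every node -/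
def par (u : T × Nd k h) : T × Nd k h :=
  match u with
  | (t, ⟨[], hl⟩) => (pT t, ⟨[], hl⟩)
  | (t, ⟨_ :: l, hl⟩) => (t, ⟨l, le_trans (Nat.le_succ _) hl⟩)

def hgt (u : T × Nd k h) : ℕ := τ u.1 + u.2.val.length

/-- the forest -/
def att : SimpleGraph (T × Nd k h) := pg (par pT k h) (hgt τ k h)

variable {pT τ k h}

theorem att_adj_cons (t : T) (x : Fin k) (l : List (Fin k)) (hl : (x :: l).length ≤ h) :
    (att pT τ k h).Adj (t, ⟨x :: l, hl⟩) (t, ⟨l, le_trans (Nat.le_succ _) hl⟩) := by
  left
  refine ⟨rfl, ?_⟩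
  unfold hgt
  simp only [List.length_cons]
  omega

theorem att_adj_base (t : T) (ht : τ t = τ (pT t) + 1) :
    (att pT τ k h).Adj (t, ⟨[], Nat.zero_le _⟩) (pT t, ⟨[], Nat.zero_le _⟩) := by
  left
  refine ⟨rfl, ?_⟩
  unfold hgt
  simp only [List.length_nil]
  omega

theorem edist_root (t : T) (l : List (Fin k)) (hl : l.length ≤ h) :
    (att pT τ k h).edist (t, ⟨l, hl⟩) (t, ⟨[], Nat.zero_le _⟩) ≤ (l.length : ℕ∞) := by
  induction l with
  | nil => simp
  | cons x l ih =>
    refine le_trans (SimpleGraph.edist_triangle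
      (v := (t, ⟨l, le_trans (Nat.le_succ _) hl⟩))) ?_
    have h1 : (att pT τ k h).edist (t, ⟨x :: l, hl⟩) (t, ⟨l, le_trans (Nat.le_succ _) hl⟩) ≤ 1 :=
      le_of_eq (SimpleGraph.edist_eq_one_iff_adj.2 (att_adj_cons t x l hl))
    have h2 := ih (le_trans (Nat.le_succ _) hl)
    calc _ ≤ (1 : ℕ∞) + (l.length : ℕ∞) := add_le_add h1 h2
      _ = ((x :: l).length : ℕ∞) := by rw [List.length_cons, add_comm]; push_cast; rfl

/-- the leaves of the tree attached at `t` -/
noncomputable def leaves (k h : ℕ) (t : T) : Finset (T × Nd k h) :=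
  Finset.univ.image fun g : Fin h → Fin k => (t, ⟨List.ofFn g, by simp⟩)

theorem leaves_card (t : T) : (leaves k h t).card = k ^ h := by
  unfold leaves
  rw [Finset.card_image_of_injective, Finset.card_univ, Fintype.card_fun, Fintype.card_fin,
    Fintype.card_fin]
  intro g g' hg
  have h1 := congrArg (fun u : T × Nd k h => u.2.val) hg
  exact List.ofFn_injective h1

theorem leaves_fst {t : T} {u : T × Nd k h} (hu : u ∈ leaves k h t) :
    u.1 = t ∧ u.2.val.length = h := by
  obtain ⟨g, -, hg⟩ := Finset.mem_image.1 hu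
  rw [← hg]
  exact ⟨rfl, List.length_ofFn⟩

theorem leaves_disj {t t' : T} (ht : t ≠ t') : Disjoint (leaves k h t) (leaves k h t') := by
  rw [Finset.disjoint_left]
  intro u hu hu'
  exact ht ((leaves_fst hu).1.symm.trans (leaves_fst hu').1)

theorem edist_leaf {t : T} {u : T × Nd k h} (hu : u ∈ leaves k h t) :
    (att pT τ k h).edist u (t, ⟨[], Nat.zero_le _⟩) ≤ (h : ℕ∞) := by
  obtain ⟨h1, h2⟩ := leaves_fst hu
  obtain ⟨t', l, hl⟩ := u
  simp only at h1 h2
  subst h1
  have := edist_root (pT := pT) (τ := τ) t' l hl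
  rw [h2] at this
  exact this

theorem leaves_same {t : T} {u v : T × Nd k h} (hu : u ∈ leaves k h t)
    (hv : v ∈ leaves k h t) : (att pT τ k h).edist u v ≤ ((2 * h : ℕ) : ℕ∞) := by
  refine le_trans (SimpleGraph.edist_triangle (v := (t, ⟨[], Nat.zero_le _⟩))) ?_
  have hv' := edist_leaf (pT := pT) (τ := τ) hv
  rw [SimpleGraph.edist_comm] at hv'
  refine le_trans (add_le_add (edist_leaf hu) hv') (le_of_eq ?_)
  rw [two_mul]; push_cast; rfl

theorem leaves_adj {t t' : T} (ht : t' = pT t ∧ τ t = τ t' + 1) {u v : T × Nd k h}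
    (hu : u ∈ leaves k h t) (hv : v ∈ leaves k h t') :
    (att pT τ k h).edist u v ≤ ((2 * h + 1 : ℕ) : ℕ∞) := by
  obtain ⟨rfl, h2⟩ := ht
  refine le_trans (SimpleGraph.edist_triangle (v := (t, ⟨[], Nat.zero_le _⟩))) ?_
  have h3 : (att pT τ k h).edist (t, ⟨[], Nat.zero_le _⟩) v ≤ 1 + (h : ℕ∞) := by
    refine le_trans (SimpleGraph.edist_triangle (v := (pT t, ⟨[], Nat.zero_le _⟩))) ?_
    have hv' := edist_leaf (pT := pT) (τ := τ) hv
    rw [SimpleGraph.edist_comm] at hv'
    exact add_le_add (le_of_eq (SimpleGraph.edist_eq_one_iff_adj.2 (att_adj_base t h2))) hv'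
  refine le_trans (add_le_add (edist_leaf hu) h3) (le_of_eq ?_)
  push_cast
  ring

variable [Fintype T]

theorem att_degree {c : ℕ} (hc' : ∀ t : T, {t' | pT t' = t ∧
    τ t' = τ t + 1}.ncard ≤ c) (v : T × Nd k h) :
    ((att pT τ k h).neighborSet v).ncard ≤ 1 + k + c := by
  have hc : ∀ t : T, (Finset.univ.filter fun t' => pT t' = t ∧ τ t' = τ t + 1).card ≤ c := by
    intro t
    refine le_trans (le_of_eq ?_) (hc' t)
    rw [← Set.ncard_coe_finset]
    congr 1
    ext u
    simp
  let ext : Fin k → T × Nd k h := fun x =>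
    if hx : (x :: v.2.val).length ≤ h then (v.1, ⟨x :: v.2.val, hx⟩) else v
  let B : Finset (T × Nd k h) := (Finset.univ.filter fun t' => pT t' = v.1 ∧
    τ t' = τ v.1 + 1).image fun t' => (t', ⟨[], Nat.zero_le _⟩)
  have hsub : (att pT τ k h).neighborSet v ⊆
      ↑(({par pT k h v} ∪ Finset.univ.image ext) ∪ B) := by
    intro u hu
    rw [Finset.mem_coe]
    rcases hu with ⟨h1, h2⟩ | ⟨h1, h2⟩
    · exact Finset.mem_union_left _ (Finset.mem_union_left _ (Finset.mem_singleton.2 h1.symm))
    · obtain ⟨t, l, hl⟩ := u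
      cases l with
      | nil =>
        apply Finset.mem_union_right
        refine Finset.mem_image.2 ⟨t, Finset.mem_filter.2 ⟨Finset.mem_univ _, ?_⟩, rfl⟩
        have h3 : par pT k h (t, ⟨[], hl⟩) = (pT t, ⟨[], hl⟩) := rfl
        rw [h3] at h1
        refine ⟨by rw [← h1], ?_⟩
        unfold hgt at h2
        rw [← h1] at h2 ⊢
        simp only [List.length_nil] at h2
        exact h2
      | cons x l =>
        apply Finset.mem_union_left
        apply Finset.mem_union_right
        refine Finset.mem_image.2 ⟨x, Finset.mem_univ _, ?_⟩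
        have h3 : par pT k h (t, ⟨x :: l, hl⟩) = (t, ⟨l, le_trans (Nat.le_succ _) hl⟩) := rfl
        rw [h3] at h1
        subst h1
        exact dif_pos hl
  refine le_trans (Set.ncard_le_ncard hsub (Finset.finite_toSet _)) ?_
  rw [Set.ncard_coe_finset]
  refine le_trans (Finset.card_union_le _ _) (Nat.add_le_add
    (le_trans (Finset.card_union_le _ _) (Nat.add_le_add ?_ ?_)) ?_)
  · rw [Finset.card_singleton]
  · refine le_trans Finset.card_image_le ?_
    rw [Finset.card_univ, Fintype.card_fin]
  · exact le_trans Finset.card_image_le (hc v.1)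

end attach

end MP_a51cbc_co
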