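import Pool.Agent.Lib.MP_a51cbc_co.Rooted
import Pool.Agent.Lib.MP_a51cbc_co.Activation

/-! Upper bounds for the game colouring number of powers of forests. -/

open Classical

namespace MP_a51cbc_co

section

variable {V : Type*} [Fintype V] {F : SimpleGraph V}

/-- order by depth, ties broken by an enumeration -/
noncomputable def rk (d : V → ℕ) (v : V) : ℕ :=
  d v * Fintype.card V + (Fintype.equivFin V v : ℕ)

theorem rk_lt (d : V → ℕ) {v w : V} (h : d v < d w) : rk d v < rk d w := by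
  unfold rk
  have h1 : ((Fintype.equivFin V v : Fin _) : ℕ) < Fintype.card V := (Fintype.equivFin V v).2
  have h2 : (d v + 1) * Fintype.card V ≤ d w * Fintype.card V := Nat.mul_le_mul_right _ h
  rw [Nat.add_mul, one_mul] at h2
  omega

theorem rk_le (d : V → ℕ) {v w : V} (h : rk d v ≤ rk d w) : d v ≤ d w := by
  by_contra hc
  have := rk_lt d (not_le.1 hc)
  omega

theorem rk_inj (d : V → ℕ) : Function.Injective (rk d) := by
  intro v w h
  have h1 : d v = d w := le_antisymm (rk_le d h.le) (rk_le d h.ge)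
  unfold rk at h
  rw [h1] at h
  have h2 : ((Fintype.equivFin V v : Fin _) : ℕ) = (Fintype.equivFin V w : ℕ) := by omega
  exact (Fintype.equivFin V).injective (Fin.ext h2)

/-- strictly deeper neighbours -/
noncomputable def deeper (H : SimpleGraph V) (d : V → ℕ) (v : V) : Finset V :=
  Finset.univ.filter fun w => H.Adj v w ∧ d v < d w

theorem deeper_spec (H : SimpleGraph V) (d : V → ℕ) : ∀ v, ∀ w ∈ deeper H d v,
    H.Adj v w ∧ rk d v < rk d w := by
  intro v w hw
  obtain ⟨-, h1, h2⟩ := Finset.mem_filter.1 hw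
  exact ⟨h1, rk_lt d h2⟩

variable {p : V → V} {d : V → ℕ}

/-- The neighbours which are not strictly deeper. -/
theorem shallow_mem (hR : Rooted F p d) {m : ℕ} {v u : V} (h : (power F m).Adj v u)
    (hu : u ∉ deeper (power F m) d v) : ∃ i j, i + j ≤ m ∧ j ≤ i ∧
      p^[j] u = p^[i] v ∧ d u = d (p^[i] v) + j := by
  obtain ⟨i, j, h1, h2, h3, h4⟩ := power_rel hR h
  have h5 : ¬ d v < d u := fun hlt => hu (Finset.mem_filter.2 ⟨Finset.mem_univ _, h, hlt⟩)
  exact ⟨i, j, h1, by omega, h2.symm, h4⟩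

/-- The vertices reached through a deeper neighbour. -/
theorem reach_mem (hR : Rooted F p d) {m : ℕ} {v z : V} (hz : rk d z ≤ rk d v)
    (h : ∃ w ∈ deeper (power F m) d v, (power F m).Adj z w) : ∃ i j, j ≤ i ∧
      p^[j] z = p^[i] v ∧ d z = d (p^[i] v) + j ∧
      ∃ i1 j1 i2 j2, i1 < j1 ∧ i1 + j1 ≤ m ∧ i2 < j2 ∧ i2 + j2 ≤ m ∧
        ((j1 ≤ j2 ∧ i = j2 - j1 + i1 ∧ j = i2) ∨ (j2 < j1 ∧ i = i1 ∧ j = j1 - j2 + i2)) := by
  obtain ⟨w, hw, hzw⟩ := h
  obtain ⟨-, hvw, hlt⟩ := Finset.mem_filter.1 hw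
  obtain ⟨i1, j1, a1, a2, a3, a4⟩ := power_rel hR hvw
  obtain ⟨i2, j2, b1, b2, b3, b4⟩ := power_rel hR hzw
  have hdz := rk_le d hz
  by_cases hj : j1 ≤ j2
  · refine ⟨j2 - j1 + i1, i2, ?_, ?_, ?_, i1, j1, i2, j2, by omega, a1, by omega, b1,
      Or.inl ⟨hj, rfl, rfl⟩⟩
    · have e : p^[j2 - j1 + i1] v = p^[i2] z := by
        rw [Function.iterate_add_apply, a2, b2, ← Function.iterate_add_apply]
        congr 1
        omega
      have e2 : d (p^[j2 - j1 + i1] v) = d (p^[i2] z) := by rw [e]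
      omega
    · rw [Function.iterate_add_apply, a2, b2, ← Function.iterate_add_apply]
      congr 1
      omega
    · have e : p^[j2 - j1 + i1] v = p^[i2] z := by
        rw [Function.iterate_add_apply, a2, b2, ← Function.iterate_add_apply]
        congr 1
        omega
      rw [e]
      exact b3
  · have e : p^[j1 - j2 + i2] z = p^[i1] v := by
      rw [Function.iterate_add_apply, b2, a2, ← Function.iterate_add_apply]
      congr 1
      omega
    refine ⟨i1, j1 - j2 + i2, ?_, e, by omega, i1, j1, i2, j2, by omega, a1, by omega, b1,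
      Or.inr ⟨by omega, rfl, rfl⟩⟩
    omega

theorem upper_even (hF : F.IsAcyclic) {Δ : ℕ} (h1 : 1 ≤ Δ)
    (hΔ : ∀ v, (F.neighborSet v).ncard ≤ Δ) (h : ℕ) :
    colg (power F (2 * h)) ≤ Δ ^ h + 3 * ((2 * h + 1) * h * Δ ^ (h - 1)) + 1 := by
  obtain ⟨p, d, hR⟩ := exists_rooted hF
  refine colg_le (aliceCan_of_order (rk_inj d) (deeper_spec (power F (2 * h)) d) ?_)
  intro v
  have k1 : (Finset.univ.filter fun w => (power F (2 * h)).Adj v w ∧
      w ∉ deeper (power F (2 * h)) d v).card ≤ Δ ^ h + (2 * h + 1) * h * Δ ^ (h - 1) := by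
    refine le_trans (Finset.card_le_card (t := desc p d (p^[h] v) h ∪ wide p d v (2 * h + 1) h) ?_)
      (le_trans (Finset.card_union_le _ _)
        (Nat.add_le_add (desc_card hR hΔ _ _) (wide_card hR h1 hΔ v _ _)))
    intro u hu
    obtain ⟨-, hu1, hu2⟩ := Finset.mem_filter.1 hu
    obtain ⟨i, j, a1, a2, a3, a4⟩ := shallow_mem hR hu1 hu2
    by_cases hj : j = h
    · have hi : i = h := by omega
      subst hj
      subst hi
      exact Finset.mem_union_left _ (Finset.mem_filter.2 ⟨Finset.mem_univ _, a3, a4⟩)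
    · exact Finset.mem_union_right _ (mem_wide (by omega) (by omega) a3 a4)
  have k2 : (Finset.univ.filter fun z => rk d z ≤ rk d v ∧
      ∃ w ∈ deeper (power F (2 * h)) d v, (power F (2 * h)).Adj z w).card ≤
      (2 * h + 1) * h * Δ ^ (h - 1) := by
    refine le_trans (Finset.card_le_card (t := wide p d v (2 * h + 1) h) ?_)
      (wide_card hR h1 hΔ v _ _)
    intro z hz
    obtain ⟨-, hz1, hz2⟩ := Finset.mem_filter.1 hz
    obtain ⟨i, j, a1, a2, a3, i1, j1, i2, j2, b1, b2, b3, b4, b5⟩ := reach_mem hR hz1 hz2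
    exact mem_wide (by omega) (by omega) a2 a3
  omega

theorem upper_odd (hF : F.IsAcyclic) {Δ : ℕ} (h1 : 1 ≤ Δ)
    (hΔ : ∀ v, (F.neighborSet v).ncard ≤ Δ) (h : ℕ) :
    colg (power F (2 * h + 1)) ≤ 4 * Δ ^ h + 3 * ((2 * h + 2) * h * Δ ^ (h - 1)) + 1 := by
  obtain ⟨p, d, hR⟩ := exists_rooted hF
  refine colg_le (aliceCan_of_order (rk_inj d) (deeper_spec (power F (2 * h + 1)) d) ?_)
  intro v
  have k1 : (Finset.univ.filter fun w => (power F (2 * h + 1)).Adj v w ∧
      w ∉ deeper (power F (2 * h + 1)) d v).card ≤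
        (Δ ^ h + Δ ^ h) + (2 * h + 2) * h * Δ ^ (h - 1) := by
    refine le_trans (Finset.card_le_card (t := (desc p d (p^[h] v) h ∪
      desc p d (p^[h + 1] v) h) ∪ wide p d v (2 * h + 2) h) ?_)
      (le_trans (Finset.card_union_le _ _)
        (Nat.add_le_add (le_trans (Finset.card_union_le _ _)
          (Nat.add_le_add (desc_card hR hΔ _ _) (desc_card hR hΔ _ _)))
          (wide_card hR h1 hΔ v _ _)))
    intro u hu
    obtain ⟨-, hu1, hu2⟩ := Finset.mem_filter.1 hu
    obtain ⟨i, j, a1, a2, a3, a4⟩ := shallow_mem hR hu1 hu2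
    by_cases hj : j = h
    · have hi : i = h ∨ i = h + 1 := by omega
      subst hj
      rcases hi with hi | hi
      · subst hi
        exact Finset.mem_union_left _ (Finset.mem_union_left _
          (Finset.mem_filter.2 ⟨Finset.mem_univ _, a3, a4⟩))
      · subst hi
        exact Finset.mem_union_left _ (Finset.mem_union_right _
          (Finset.mem_filter.2 ⟨Finset.mem_univ _, a3, a4⟩))
    · exact Finset.mem_union_right _ (mem_wide (by omega) (by omega) a3 a4)
  have k2 : (Finset.univ.filter fun z => rk d z ≤ rk d v ∧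
      ∃ w ∈ deeper (power F (2 * h + 1)) d v, (power F (2 * h + 1)).Adj z w).card ≤
      Δ ^ h + (2 * h + 2) * h * Δ ^ (h - 1) := by
    refine le_trans (Finset.card_le_card
      (t := desc p d (p^[h] v) h ∪ wide p d v (2 * h + 2) h) ?_)
      (le_trans (Finset.card_union_le _ _)
        (Nat.add_le_add (desc_card hR hΔ _ _) (wide_card hR h1 hΔ v _ _)))
    intro z hz
    obtain ⟨-, hz1, hz2⟩ := Finset.mem_filter.1 hz
    obtain ⟨i, j, a1, a2, a3, i1, j1, i2, j2, b1, b2, b3, b4, b5⟩ := reach_mem hR hz1 hz2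
    by_cases hj : j = h
    · have hi : i = h := by omega
      subst hj
      subst hi
      exact Finset.mem_union_left _ (Finset.mem_filter.2 ⟨Finset.mem_univ _, a2, a3⟩)
    · exact Finset.mem_union_right _ (mem_wide (by omega) (by omega) a2 a3)
  omega

end

end MP_a51cbc_co
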